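import Pool.Agent.Q211.LocDep.Final

open MeasureTheory ProbabilityTheory Filter Asymptotics Pool.Agent.Q211.LocDep
open scoped Topology

namespace Pool.Agent.Results.MP_cca6ac_pr.UnboundedGap

/-- The monotone property `prop` (two edges share a vertex, or at least `√n` edges) has the
threshold pair `(Lo, Up)`, and `Up / Lo` is unbounded for every fixed `d ≥ 1`; in particular the
ratio is not `O(f(d))` for any function `f` of `d` alone. -/
theorem result :
    IsMonotoneProperty prop ∧ IsThresholdPair prop Lo Up ∧
    (∀ d : ℕ, 1 ≤ d → Tendsto (fun n => Up n d / Lo n d) atTop atTop) ∧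
    (∀ f : ℕ → ℝ, ∀ d : ℕ, 1 ≤ d →
      Admissible (fun _ => d) ∧ ¬ (fun n => Up n d / Lo n d) =O[atTop] (fun _ : ℕ => f d)) := by
  refine ⟨isMonotoneProperty_prop, isThresholdPair_prop, tendsto_ratio, ?_⟩
  intro f d hd
  constructor
  · have h1 : Tendsto (fun n : ℕ => (n : ℝ) / Real.log n) atTop atTop := by
      have h2 : Tendsto (fun x : ℝ => x / Real.log x) atTop atTop := by
        have h3 : Tendsto (fun x : ℝ => Real.log x / x) atTop (𝓝[>] 0) := by
          rw [tendsto_nhdsWithin_iff]
          refine ⟨Real.isLittleO_log_id_atTop.tendsto_div_nhds_zero, ?_⟩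
          filter_upwards [eventually_gt_atTop 1] with x hx
          exact div_pos (Real.log_pos hx) (by linarith)
        have h4 := h3.inv_tendsto_nhdsGT_zero
        refine h4.congr fun x => ?_
        simp
      exact h2.comp tendsto_natCast_atTop_atTop
    refine IsBigO.of_bound 1 ?_
    filter_upwards [h1.eventually_ge_atTop (d : ℝ)] with n hn
    rw [one_mul, Real.norm_of_nonneg (Nat.cast_nonneg _)]
    exact hn.trans (le_abs_self _)
  · intro h
    obtain ⟨C, hC⟩ := h.bound
    have h2 := (tendsto_ratio d hd).eventually_gt_atTop (C * ‖f d‖)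
    obtain ⟨n, hn1, hn2⟩ := (hC.and h2).exists
    exact absurd ((le_abs_self _).trans hn1) (not_le.2 hn2)

end Pool.Agent.Results.MP_cca6ac_pr.UnboundedGap
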